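import Pool.Agent.H63N.FJ.Kern

/-!
# Farrell–Jones groups: kernels which are direct products or graph products

`C` is any class of groups with the closure properties `ClosedE C`: it contains `ℤ` and is closed
under subgroups, finite products, free products, overgroups of finite index, directed colimits and
satisfies the extension criterion with virtually cyclic subgroups. All this is known for the class
`FJ` of Farrell–Jones groups.

(1) Let `N` be a normal subgroup of `G` such that `G / N` is in `C`. Let `N` be the internal graph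
product over a graph `Λ` (of any size) of subgroups `A v`, such that every `g` in `G` acts on `N` as an
inner automorphism of `N` followed by an automorphism which permutes the `A v` as an automorphism of `Λ`
permutes the vertices. If `⟨A v, h⟩` is in `C` for all `h` in the normalizer of `A v`, then `G` is in `C`.

(2) Let `N` be the restricted direct product of any number of centreless and directly indecomposable
groups `M`, all of whose semidirect products `M ⋊ ℤ` are in `C`. Then every extension of `N` by a group in
`C` is in `C`. Here nothing is assumed on the extension: by the theorem on the uniqueness of direct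
decompositions every automorphism of `N` permutes the factors.

(3) All semidirect products `M ⋊ ℤ` are in `C` if `M` is in `C` and all outer automorphisms of `M` have
finite order (for instance for the irreducible lattices of higher rank, by rigidity).

(4) Let `C` contain the solvable groups. Then `C` contains all groups which have an ascending
(transfinite) series of normal subgroups whose factors are solvable, or locally finite, or kernels as in
(1) or (2), and all groups whose finitely generated subgroups have such a series.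
-/

set_option autoImplicit false

namespace Pool.Agent.Results.MP_490288_al.CentrelessFactors

open Pool.Agent.Y110.FJ (ClosedE)
open Pool.Agent.H65FJ (GPr)

/-- the conjugate `g H g⁻¹` -/
def Conj {G : Type} [Group G] (g : G) (H : Subgroup G) : Subgroup G :=
  H.map (MulAut.conj g).toMonoidHom

/-- `N` is the internal graph product over the graph `Λ` of the subgroups `A v` of `G`: the
homomorphism to `G` from the graph product of the `A v` which extends the inclusions is injective
with range `N`. -/
def IsGraphProduct {G V : Type} [Group G] (Λ : SimpleGraph V) (A : V → Subgroup G)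
    (N : Subgroup G) : Prop :=
  ∃ F : GPr Λ (fun v => ↥(A v)) →* G,
    (∀ v (a : ↥(A v)), F (GPr.of Λ (fun v => ↥(A v)) v a) = a) ∧ Function.Injective F ∧
      F.range = N

/-- `N` is the graph product over `Λ` of the `A v`; for each `g` in `G` some element of the coset
`g N` permutes the `A v` by an automorphism of the graph `Λ`; and `⟨A v, h⟩` is in `C` for all `h`
in the normalizer of `A v`. -/
def Kernel (C : ∀ (G : Type) [Group G], Prop) {G V : Type} [Group G] (Λ : SimpleGraph V)
    (A : V → Subgroup G) (N : Subgroup G) : Prop :=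
  IsGraphProduct Λ A N ∧
    (∀ g : G, ∃ n ∈ N, ∃ s : Λ ≃g Λ, ∀ v, A (s v) = Conj (g * n) (A v)) ∧
    ∀ v (h : G), Conj h (A v) = A v → C ↥(A v ⊔ Subgroup.zpowers h)

/-- `N` is the internal restricted direct product of the subgroups `A v` of `G`: elements of
different `A v` commute, each `A v` meets the subgroup generated by the others trivially, and the
`A v` generate `N`. -/
def IsDirectProduct {G V : Type} [Group G] (A : V → Subgroup G) (N : Subgroup G) : Prop :=
  (∀ v w, v ≠ w → ∀ a ∈ A v, ∀ b ∈ A w, a * b = b * a) ∧ iSupIndep A ∧ ⨆ v, A v = N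

/-- `M` is nontrivial and not the direct product of two nontrivial subgroups -/
def Indecomposable (M : Type) [Group M] : Prop :=
  Nontrivial M ∧ ∀ P Q : Subgroup M, (∀ a ∈ P, ∀ b ∈ Q, a * b = b * a) → P ⊓ Q = ⊥ → P ⊔ Q = ⊤ →
    P = ⊥ ∨ Q = ⊥

/-- all semidirect products of `M` with the infinite cyclic group are in `C` -/
def AllTori (C : ∀ (G : Type) [Group G], Prop) (M : Type) [Group M] : Prop :=
  ∀ φ : MulAut M, C (M ⋊[zpowersHom (MulAut M) φ] Multiplicative ℤ)

/-- centreless, directly indecomposable, and all semidirect products with `ℤ` are in `C` -/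
def Factor (C : ∀ (G : Type) [Group G], Prop) (M : Type) [Group M] : Prop :=
  Subgroup.center M = ⊥ ∧ Indecomposable M ∧ AllTori C M

/-- every finitely generated subgroup is finite -/
def LocallyFinite (G : Type) [Group G] : Prop :=
  ∀ s : Finset G, Finite (Subgroup.closure (s : Set G))

/-- `G` has an ascending (transfinite) series of normal subgroups each factor of which is solvable, or
locally finite, or a graph product as in `Kernel`, or a restricted direct product of groups with the
property `Factor`. Formally, there is a set `S` of normal subgroups of `G` (the members of the series)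
which contains the trivial subgroup and the unions of its nonempty chains, such that each proper
subgroup `K` in `S` is contained in a larger `L` in `S` such that `L / K` is a factor as above (in the
group `G / K`). -/
def HasSeries (C : ∀ (G : Type) [Group G], Prop) (G : Type) [Group G] : Prop :=
  ∃ S : Set (Subgroup G), ⊥ ∈ S ∧ (∀ K ∈ S, K.Normal) ∧
    (∀ T ⊆ S, T.Nonempty → IsChain (· ≤ ·) T → sSup T ∈ S) ∧
    ∀ (K : Subgroup G) [K.Normal], K ∈ S → K ≠ ⊤ → ∃ L ∈ S, K < L ∧
      (Group.IsSolvable ↥(L.map (QuotientGroup.mk' K)) ∨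
        LocallyFinite ↥(L.map (QuotientGroup.mk' K)) ∨
        (∃ (V : Type) (Λ : SimpleGraph V) (A : V → Subgroup (G ⧸ K)),
          Kernel C Λ A (L.map (QuotientGroup.mk' K))) ∨
        ∃ (V : Type) (A : V → Subgroup (G ⧸ K)),
          IsDirectProduct A (L.map (QuotientGroup.mk' K)) ∧ ∀ v, Factor C ↥(A v))

open Pool.Agent
open Pool.Agent.H65FJ (cyc of_eq of_fg solv_sup lf_sup)

lemma kernel_iff (C : ∀ (G : Type) [Group G], Prop) {G V : Type} [Group G] (Λ : SimpleGraph V)
    (A : V → Subgroup G) (N : Subgroup G) : Kernel C Λ A N ↔ H63N.FJ.Kernel C Λ A N :=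
  ⟨fun h => ⟨h.1, h.2.1, h.2.2⟩, fun h => ⟨h.product, h.permutes, h.norm⟩⟩

lemma kernel_of_factor {C : ∀ (G : Type) [Group G], Prop} (hC : ClosedE C) {G V : Type} [Group G]
    {A : V → Subgroup G} {N : Subgroup G} (hN : N.Normal) (h : IsDirectProduct A N)
    (hF : ∀ v, Factor C ↥(A v)) : Kernel C (⊤ : SimpleGraph V) A N := by
  rw [kernel_iff]
  exact H63N.FJ.IsDirect.kernel ⟨h.1, h.2.1, h.2.2⟩ hN (fun v => (hF v).1) (fun v => (hF v).2.1)
    (fun v u hu => H63N.FJ.norm_of_absorbs hC.base (A v) (hF v).2.2 u hu)

/-- Ascending series of normal subgroups: transfinite induction along a set `S` of normal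
subgroups. -/
theorem hyperS {C : ∀ (G : Type) [Group G], Prop} (hC : ClosedE C) (G : Type) [Group G]
    (S : Set (Subgroup G)) (hbS : ⊥ ∈ S)
    (hsup : ∀ T ⊆ S, T.Nonempty → IsChain (· ≤ ·) T → sSup T ∈ S)
    (h : ∀ (K : Subgroup G) [K.Normal], K ∈ S → K ≠ ⊤ → ∃ L : Subgroup G, L.Normal ∧ L ∈ S ∧ K < L ∧
      ∀ g : G, C ↥((L ⊔ Subgroup.zpowers g).map (QuotientGroup.mk' K))) : C G := by
  classical
  let Z : Set (Subgroup G) := {K | (K.Normal ∧ K ∈ S) ∧ ∀ g : G, C ↥(K ⊔ Subgroup.zpowers g)}
  have hbot : (⊥ : Subgroup G) ∈ Z := by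
    refine ⟨⟨inferInstance, hbS⟩, fun g => ?_⟩
    rw [bot_sup_eq]
    exact cyc hC.base G g
  have hchain : ∀ c ⊆ Z, IsChain (· ≤ ·) c → ∀ y ∈ c, ∃ ub ∈ Z, ∀ z ∈ c, z ≤ ub := by
    intro c hc hch y hy
    have hdir : DirectedOn (· ≤ ·) c := hch.directedOn
    have hne : c.Nonempty := ⟨y, hy⟩
    refine ⟨sSup c, ⟨⟨?_, hsup c (fun K hK => (hc hK).1.2) hne hch⟩, ?_⟩, fun z hz => le_sSup hz⟩
    · constructor
      intro n hn g
      rw [Subgroup.mem_sSup_of_directedOn hne hdir] at hn ⊢
      obtain ⟨K, hK, hnK⟩ := hn
      exact ⟨K, hK, (hc hK).1.1.conj_mem n hnK g⟩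
    · intro g
      have : Nonempty c := ⟨⟨y, hy⟩⟩
      have hle : ∀ K : c, K.1 ⊔ Subgroup.zpowers g ≤ sSup c ⊔ Subgroup.zpowers g := fun K =>
        sup_le_sup_right (le_sSup K.2) _
      refine Pool.Agent.Y430.SS.of_directed hC.base _ c ?_
        (fun K => (K.1 ⊔ Subgroup.zpowers g).subgroupOf (sSup c ⊔ Subgroup.zpowers g)) ?_ ?_ ?_
      · rintro ⟨i, hi⟩ ⟨j, hj⟩
        obtain ⟨k, hk, h1, h2⟩ := hdir i hi j hj
        exact ⟨⟨k, hk⟩, h1, h2⟩
      · intro K L hKL x hx
        exact sup_le_sup_right (show K.1 ≤ L.1 from hKL) _ hx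
      · rintro ⟨x, hx⟩
        have : (sSup c).Normal := by
          constructor
          intro n hn g
          rw [Subgroup.mem_sSup_of_directedOn hne hdir] at hn ⊢
          obtain ⟨K, hK, hnK⟩ := hn
          exact ⟨K, hK, (hc hK).1.1.conj_mem n hnK g⟩
        obtain ⟨n, hn, z, hz, rfl⟩ := Subgroup.mem_sup_of_normal_left.1 hx
        rw [Subgroup.mem_sSup_of_directedOn hne hdir] at hn
        obtain ⟨K, hK, hnK⟩ := hn
        exact ⟨⟨K, hK⟩, mul_mem (Subgroup.mem_sup_left hnK) (Subgroup.mem_sup_right hz)⟩
      · intro K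
        exact hC.base.of_injective _ _ (Subgroup.subgroupOfEquivOfLe (hle K)).toMonoidHom
          (Subgroup.subgroupOfEquivOfLe (hle K)).injective ((hc K.2).2 g)
  obtain ⟨K, _, hK⟩ := zorn_le_nonempty₀ Z hchain ⊥ hbot
  have hKn : K.Normal := hK.prop.1.1
  by_cases hKt : K = ⊤
  · have h1 := hK.prop.2 1
    rw [Subgroup.zpowers_one_eq_bot, sup_bot_eq, hKt] at h1
    exact hC.base.of_injective G _ (Subgroup.topEquiv (G := G)).symm.toMonoidHom
      (Subgroup.topEquiv (G := G)).symm.injective h1
  · exfalso
    obtain ⟨L, hL, hLS, hKL, hLg⟩ := h K hK.prop.1.2 hKt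
    refine absurd (hK.le_of_ge (y := L) ⟨⟨hL, hLS⟩, fun g => ?_⟩ hKL.le) (not_le_of_gt hKL)
    -- extension
    let G' : Subgroup G := L ⊔ Subgroup.zpowers g
    let π := (QuotientGroup.mk' K).subgroupMap G'
    have hπ : ∀ x : G', x ∈ π.ker → (x : G) ∈ K := by
      intro x hx
      have h1 : (QuotientGroup.mk' K) (x : G) = 1 := congrArg Subtype.val hx
      exact (QuotientGroup.eq_one_iff _).1 h1
    refine Pool.Agent.Y529.FJ.t_ext C hC G' π.ker ?_ ?_ ?_
    · have h1 := hK.prop.2 1
      rw [Subgroup.zpowers_one_eq_bot, sup_bot_eq] at h1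
      refine hC.base.of_injective _ K ((G'.subtype.comp π.ker.subtype).codRestrict K
        (fun x => hπ x.1 x.2)) ?_ h1
      intro x y hxy
      have h2 : ((x.1 : G') : G) = ((y.1 : G') : G) := congrArg (fun z : K => (z : G)) hxy
      exact Subtype.ext (Subtype.ext h2)
    · exact hC.base.of_injective _ _ (QuotientGroup.kerLift π) (QuotientGroup.kerLift_injective π)
        (hLg g)
    · intro x _
      have hle : ∀ y : ↥(π.ker ⊔ Subgroup.zpowers x), ((y : G') : G) ∈
          K ⊔ Subgroup.zpowers (x : G) := by
        intro y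
        have h1 : (π.ker ⊔ Subgroup.zpowers x).map G'.subtype ≤ K ⊔ Subgroup.zpowers (x : G) := by
          rw [Subgroup.map_sup]
          refine sup_le_sup ?_ ?_
          · rintro _ ⟨z, hz, rfl⟩; exact hπ z hz
          · rw [MonoidHom.map_zpowers]; rfl
        exact h1 ⟨y, y.2, rfl⟩
      refine hC.base.of_injective _ _ ((G'.subtype.comp (Subgroup.subtype _)).codRestrict
        (K ⊔ Subgroup.zpowers (x : G)) hle) ?_ (hK.prop.2 (x : G))
      intro y z hyz
      have h2 : ((y.1 : G') : G) = ((z.1 : G') : G) :=
        congrArg (fun z : ↥(K ⊔ Subgroup.zpowers (x : G)) => (z : G)) hyz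
      exact Subtype.ext (Subtype.ext h2)

theorem series_mem {C : ∀ (G : Type) [Group G], Prop} (hC : ClosedE C)
    (hS : ∀ (G : Type) [Group G], Group.IsSolvable G → C G) (G : Type) [Group G]
    (h : HasSeries C G) : C G := by
  obtain ⟨S, h0, hN, hsup, hst⟩ := h
  refine hyperS hC G S h0 hsup (fun K _ hKS hK => ?_)
  obtain ⟨L, hLS, hKL, hLK⟩ := hst K hKS hK
  refine ⟨L, hN L hLS, hLS, hKL, fun g => ?_⟩
  have h1 : (L ⊔ Subgroup.zpowers g).map (QuotientGroup.mk' K) =
      L.map (QuotientGroup.mk' K) ⊔ Subgroup.zpowers (QuotientGroup.mk' K g) := by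
    rw [Subgroup.map_sup, MonoidHom.map_zpowers]
  have hn : (L.map (QuotientGroup.mk' K)).Normal :=
    Subgroup.Normal.map (hN L hLS) _ (QuotientGroup.mk'_surjective K)
  refine of_eq h1.symm ?_
  rcases hLK with h2 | h2 | ⟨V, Λ, A, h2⟩ | ⟨V, A, h2, h3⟩
  · exact hS _ (solv_sup _ _ h2)
  · exact lf_sup hC _ _ h2
  · exact ((kernel_iff C Λ A _).1 h2).sup_mem hC hn _
  · exact ((kernel_iff C _ A _).1 (kernel_of_factor hC hn h2 h3)).sup_mem hC hn _

theorem locally_series_mem {C : ∀ (G : Type) [Group G], Prop} (hC : ClosedE C)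
    (hS : ∀ (G : Type) [Group G], Group.IsSolvable G → C G) (G : Type) [Group G]
    (h : ∀ s : Finset G, HasSeries C ↥(Subgroup.closure (s : Set G))) : C G :=
  of_fg hC.base G (fun s => series_mem hC hS _ (h s))

/-- Let `C` be a class of groups with the closure properties `ClosedE C`.
(1) If `G / N` is in `C` and `N` is a graph product as in `Kernel`, then `G` is in `C`.
(2) If `G / N` is in `C` and `N` is the restricted direct product of subgroups which are centreless,
directly indecomposable and have all their semidirect products with `ℤ` in `C`, then `G` is in `C`.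
(3) The last condition holds for the groups `M` in `C` such that every automorphism of `M` has a
positive power which is inner.
(4) If `C` contains the solvable groups, then it contains the groups with the property `HasSeries` and
the groups whose finitely generated subgroups have it. -/
theorem result (C : ∀ (G : Type) [Group G], Prop) (hC : ClosedE C) :
    (∀ (G V : Type) [Group G] (Λ : SimpleGraph V) (A : V → Subgroup G) (N : Subgroup G)
      [N.Normal], Kernel C Λ A N → C (G ⧸ N) → C G) ∧
    (∀ (G V : Type) [Group G] (A : V → Subgroup G) (N : Subgroup G) [N.Normal],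
      IsDirectProduct A N → (∀ v, Factor C ↥(A v)) → C (G ⧸ N) → C G) ∧
    (∀ (M : Type) [Group M], C M →
      (∀ φ : MulAut M, ∃ n : ℕ, 0 < n ∧ ∃ m : M, φ ^ n = MulAut.conj m) → AllTori C M) ∧
    ((∀ (G : Type) [Group G], Group.IsSolvable G → C G) →
      (∀ (G : Type) [Group G], HasSeries C G → C G) ∧
      (∀ (G : Type) [Group G], (∀ s : Finset G, HasSeries C ↥(Subgroup.closure (s : Set G))) →
        C G)) := by
  refine ⟨?_, ?_, ?_, fun hS => ⟨?_, ?_⟩⟩
  · intro G V _ Λ A N _ h hQ
    exact ((kernel_iff C Λ A N).1 h).mem hC hQ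
  · intro G V _ A N hN h hF hQ
    exact ((kernel_iff C _ A N).1 (kernel_of_factor hC hN h hF)).mem hC hQ
  · intro M _ hM h
    exact H63N.FJ.absorbs_of_torsion hC.base M hM h
  · intro G _ h
    exact series_mem hC hS G h
  · intro G _ h
    exact locally_series_mem hC hS G h

end Pool.Agent.Results.MP_490288_al.CentrelessFactors
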