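import Pool.Agent.H65FJ.Hyper

/-!
# Farrell–Jones groups: a criterion for extensions

`C` is any class of groups with the closure properties `ClosedE C`: it contains `ℤ` and is closed
under subgroups, finite products, free products, overgroups of finite index, directed colimits and
satisfies the extension criterion with virtually cyclic subgroups. All this is known for the class
`FJ` of Farrell–Jones groups.

`Realized C g E` means: there are a group `P` in `C`, an injective homomorphism from the subgroup
generated by `E ∪ g E g⁻¹` to `P` and an element `p` of `P` such that the conjugation with `g` on `E`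
is given by the conjugation with `p`. Such groups `P` are not assumed to be related for different
`g` or `E`, and the group `N ⟨g⟩` need not be residually anything.

Outline of the proof. `N ⟨g⟩` is the directed colimit of the HNN extensions of the groups generated by
`E ∪ g E g⁻¹`, `E` finite. Such an HNN extension has a homomorphism to `P` which is injective on the
base, and therefore embeds in `F(X) ⋊ P`.
-/

set_option autoImplicit false

namespace Pool.Agent.Results.MP_490288_al.RealizedConjugations

open Pool.Agent.Y110.FJ (ClosedE Realized)

/-- Let `C` be a class of groups with the closure properties `ClosedE C`, `N` a normal subgroup of `G`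
and `G / N` in `C`. Then `G` is in `C` in each of the following cases. (1) Every coset `N g` has an
element `n g` whose conjugation action on each finite subset of `N` is realized by an inner
automorphism of a group in `C`. (2) Every coset `N g` has an element `n g` whose conjugation action on
each finite subset `E` of `N` is the restriction of an automorphism `σ` of a group `M` in `C`
which contains the subgroup generated by `E ∪ (n g) E (n g)⁻¹`, such that some power of `σ` is inner.
(3) `N` is locally finite. -/
theorem result (C : ∀ (G : Type) [Group G], Prop) (hC : ClosedE C)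
    (G : Type) [Group G] (N : Subgroup G) [N.Normal] (hQ : C (G ⧸ N)) :
    ((∀ g : G, ∃ n ∈ N, ∀ E : Set G, E.Finite → E ⊆ N → Realized C (n * g) E) → C G) ∧
    ((∀ g : G, ∃ n ∈ N, ∀ E : Set G, E.Finite → E ⊆ N →
      ∃ (M : Type) (_ : Group M)
        (ι : ↥(Subgroup.closure (E ∪ (fun x => n * g * x * (n * g)⁻¹) '' E)) →* M)
        (σ : MulAut M) (k : ℕ) (m : M),
        C M ∧ Function.Injective ι ∧ 0 < k ∧ σ ^ k = MulAut.conj m ∧
        ∀ x y : ↥(Subgroup.closure (E ∪ (fun x => n * g * x * (n * g)⁻¹) '' E)),
          (x : G) ∈ E → (y : G) = n * g * x * (n * g)⁻¹ → ι y = σ (ι x)) → C G) ∧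
    ((∀ s : Finset N, Finite (Subgroup.closure (s : Set N))) → C G) := by
  refine ⟨fun h => Pool.Agent.H65FJ.crit' hC G N hQ h, fun h => ?_,
    fun h => Pool.Agent.H65FJ.lf_ext hC G N h hQ⟩
  refine Pool.Agent.H65FJ.crit' hC G N hQ (fun g => ?_)
  obtain ⟨n, hn, hE⟩ := h g
  refine ⟨n, hn, fun E h1 h2 => ?_⟩
  obtain ⟨M, _, ι, σ, k, m, hM, hι, hk, hσ, hx⟩ := hE E h1 h2
  exact Pool.Agent.H65FJ.realized_fin hC.base (n * g) E M hM ι hι σ k hk m hσ hx

end Pool.Agent.Results.MP_490288_al.RealizedConjugations
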